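import Mathlib

/-!
# Linear algebra: an endomorphism that commutes with an automorphism of finite order
-/

set_option autoImplicit false
set_option linter.unusedSectionVars false

namespace Pool.Agent.TH117.HS

open Finset Polynomial Module Module.End

variable {E : Type} [Field E] {V : Type} [AddCommGroup V] [Module E V] [FiniteDimensional E V]

/-- An endomorphism is semisimple if its eigenspaces span. -/
theorem semisimple_of_iSup (f : Module.End E V) (h : ⨆ α, f.eigenspace α = ⊤) :
    f.IsSemisimple := by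
  classical
  have hfin := finite_hasEigenvalue f
  let S : Finset E := hfin.toFinset
  have hS : ∀ α, α ∈ S ↔ f.HasEigenvalue α := fun α => by
    rw [Set.Finite.mem_toFinset]
    exact Iff.rfl
  let Q : E[X] := ∏ α ∈ S, (X - C α)
  have hsep : Q.Separable := separable_prod_X_sub_C_iff'.2 fun x _ y _ hxy => hxy
  refine isSemisimple_of_squarefree_aeval_eq_zero hsep.squarefree ?_
  have hker : (⊤ : Submodule E V) ≤ LinearMap.ker (aeval f Q) := by
    rw [← h]
    refine iSup_le fun α v hv => ?_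
    rw [LinearMap.mem_ker]
    by_cases hv0 : v = 0
    · rw [hv0, map_zero]
    have hα : α ∈ S := (hS α).2 (hasEigenvalue_of_hasEigenvector ⟨hv, hv0⟩)
    have h1 : Q = (∏ β ∈ S.erase α, (X - C β)) * (X - C α) :=
      (Finset.prod_erase_mul _ _ hα).symm
    rw [h1, map_mul]
    change (aeval f (∏ β ∈ S.erase α, (X - C β))) ((aeval f (X - C α)) v) = 0
    have h2 : (aeval f (X - C α)) v = 0 := by
      rw [mem_eigenspace_iff] at hv
      rw [map_sub, aeval_X, aeval_C, LinearMap.sub_apply, hv, algebraMap_end_apply, sub_self]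
    rw [h2, map_zero]
  ext v
  exact LinearMap.mem_ker.1 (hker Submodule.mem_top)

variable {Φ g : Module.End E V}

theorem mapsTo_eig (hc : Commute Φ g) (ω : E) : ∀ v ∈ g.eigenspace ω, Φ v ∈ g.eigenspace ω := by
  intro v hv
  rw [mem_eigenspace_iff] at hv ⊢
  have h1 : g (Φ v) = Φ (g v) := (LinearMap.congr_fun hc v).symm
  rw [h1, hv, map_smul]

/-- Gluing along the eigenspaces of an automorphism of finite order. -/
theorem semisimple_glue [CharZero E] [IsAlgClosed E] (hc : Commute Φ g) {N : ℕ} (hN : 0 < N)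
    (hg : g ^ N = 1)
    (h : ∀ ω : E, ω ^ N = 1 → Module.End.IsSemisimple (Φ.restrict (mapsTo_eig hc ω))) :
    Φ.IsSemisimple := by
  classical
  have hgs : g.IsSemisimple := by
    have hsep : (X ^ N - C 1 : E[X]).Separable :=
      separable_X_pow_sub_C (1 : E) (by exact_mod_cast hN.ne') one_ne_zero
    refine isSemisimple_of_squarefree_aeval_eq_zero hsep.squarefree ?_
    simp [hg]
  refine semisimple_of_iSup Φ ?_
  rw [eq_top_iff, ← hgs.iSup_eigenspace_eq_top]
  refine iSup_le fun ω => ?_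
  by_cases hω : ω ^ N = 1
  · have h1 := (h ω hω).iSup_eigenspace_eq_top
    intro v hv
    have h2 : (⟨v, hv⟩ : g.eigenspace ω) ∈
        ⨆ α, Module.End.eigenspace (Φ.restrict (mapsTo_eig hc ω)) α := by
      rw [h1]
      exact Submodule.mem_top
    have h3 : (⨆ α, Module.End.eigenspace (Φ.restrict (mapsTo_eig hc ω)) α) ≤
        (⨆ α, Φ.eigenspace α).comap (g.eigenspace ω).subtype := by
      refine iSup_le fun α w hw => ?_
      rw [Submodule.mem_comap]
      refine Submodule.mem_iSup_of_mem α ?_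
      rw [mem_eigenspace_iff] at hw ⊢
      exact congrArg Subtype.val hw
    exact h3 h2
  · have h0 : g.eigenspace ω = ⊥ := by
      rw [eq_bot_iff]
      intro v hv
      rw [mem_eigenspace_iff] at hv
      have h1 : ∀ m : ℕ, (g ^ m) v = ω ^ m • v := by
        intro m
        induction m with
        | zero => rw [pow_zero, pow_zero, one_smul]; rfl
        | succ m ih =>
          rw [pow_succ]
          change (g ^ m) (g v) = _
          rw [hv, map_smul, ih, smul_smul, pow_succ, mul_comm]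
      have h2 := h1 N
      rw [hg] at h2
      have h3 : (1 - ω ^ N) • v = 0 := by
        rw [sub_smul, one_smul, ← h2]
        exact sub_self v
      rcases smul_eq_zero.1 h3 with h4 | h4
      · exact absurd (sub_eq_zero.1 h4).symm hω
      · rw [h4]
        exact Submodule.zero_mem _
    rw [h0]
    exact bot_le

/-- The trace on an eigenspace of the automorphism. -/
theorem trace_eig [CharZero E] (hc : Commute Φ g) {N : ℕ} (hN : 0 < N)
    (hg : g ^ N = 1) {ω : E} (hω : ω ^ N = 1) (m : ℕ) :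
    (N : E) * LinearMap.trace E _ ((Φ.restrict (mapsTo_eig hc ω)) ^ m) =
      ∑ i ∈ range N, (ω⁻¹) ^ i * LinearMap.trace E V (Φ ^ m * g ^ i) := by
  classical
  have hω0 : ω ≠ 0 := by
    rintro rfl
    rw [zero_pow hN.ne'] at hω
    exact zero_ne_one hω
  let Pr : Module.End E V := ∑ i ∈ range N, (ω⁻¹) ^ i • g ^ i
  have hgP : g * Pr = ω • Pr := by
    have hN1 : N - 1 + 1 = N := Nat.sub_add_cancel hN
    have h1 : g * Pr = ∑ i ∈ range N, (ω⁻¹) ^ i • g ^ (i + 1) := by
      change g * ∑ i ∈ range N, (ω⁻¹) ^ i • g ^ i = _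
      rw [Finset.mul_sum]
      refine Finset.sum_congr rfl fun i _ => ?_
      rw [mul_smul_comm, ← pow_succ']
    have h2 : ω • Pr = ∑ i ∈ range N, (ω * (ω⁻¹) ^ i) • g ^ i := by
      change ω • ∑ i ∈ range N, (ω⁻¹) ^ i • g ^ i = _
      rw [Finset.smul_sum]
      exact Finset.sum_congr rfl fun i _ => by rw [smul_smul]
    rw [h1, h2]
    have h3 : ∀ n : ℕ, ∑ i ∈ range (n + 1), (ω * (ω⁻¹) ^ i) • g ^ i =
        ∑ i ∈ range n, (ω⁻¹) ^ i • g ^ (i + 1) + ω • (1 : Module.End E V) := by
      intro n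
      rw [Finset.sum_range_succ']
      congr 1
      · refine Finset.sum_congr rfl fun i _ => ?_
        rw [pow_succ' ω⁻¹, ← mul_assoc, mul_inv_cancel₀ hω0, one_mul]
      · rw [pow_zero, pow_zero, mul_one]
    have h4 : ∑ i ∈ range N, (ω * (ω⁻¹) ^ i) • g ^ i =
        ∑ i ∈ range (N - 1), (ω⁻¹) ^ i • g ^ (i + 1) + ω • (1 : Module.End E V) := by
      rw [← h3, hN1]
    have h5 : ∑ i ∈ range N, (ω⁻¹) ^ i • g ^ (i + 1) =
        ∑ i ∈ range (N - 1), (ω⁻¹) ^ i • g ^ (i + 1) + (ω⁻¹) ^ (N - 1) • g ^ N := by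
      conv_lhs => rw [← hN1]
      rw [Finset.sum_range_succ, hN1]
    rw [h4, h5, hg]
    congr 2
    have h6 : ω⁻¹ ^ (N - 1) * ω⁻¹ = 1 := by
      rw [← pow_succ, hN1, inv_pow, hω, inv_one]
    exact mul_right_cancel₀ (inv_ne_zero hω0) (h6.trans (mul_inv_cancel₀ hω0).symm)
  have hcP : Commute Φ Pr := by
    change Commute Φ (∑ i ∈ range N, (ω⁻¹) ^ i • g ^ i)
    exact Commute.sum_right _ _ _ fun i _ => (hc.pow_right i).smul_right _
  have hmem : ∀ v, (Φ ^ m * Pr) v ∈ g.eigenspace ω := by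
    intro v
    rw [mem_eigenspace_iff]
    have h1 : g * (Φ ^ m * Pr) = ω • (Φ ^ m * Pr) := by
      rw [← mul_assoc, ← (hc.pow_left m).eq, mul_assoc, hgP, mul_smul_comm]
    exact LinearMap.congr_fun h1 v
  have hPv : ∀ v ∈ g.eigenspace ω, Pr v = (N : E) • v := by
    intro v hv
    rw [mem_eigenspace_iff] at hv
    have h1 : ∀ i : ℕ, (g ^ i) v = ω ^ i • v := by
      intro i
      induction i with
      | zero => rw [pow_zero, pow_zero, one_smul]; rfl
      | succ i ih =>
        rw [pow_succ]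
        change (g ^ i) (g v) = _
        rw [hv, map_smul, ih, smul_smul, pow_succ, mul_comm]
    change (∑ i ∈ range N, (ω⁻¹) ^ i • g ^ i) v = _
    rw [LinearMap.sum_apply]
    have h2 : ∀ i ∈ range N, ((ω⁻¹) ^ i • g ^ i) v = v := by
      intro i _
      rw [LinearMap.smul_apply, h1, smul_smul, ← mul_pow, inv_mul_cancel₀ hω0, one_pow, one_smul]
    rw [Finset.sum_congr rfl h2, Finset.sum_const, card_range, Nat.cast_smul_eq_nsmul]
  have h1 := LinearMap.trace_restrict_eq_of_forall_mem (g.eigenspace ω) (Φ ^ m * Pr) hmem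
    (fun v _ => hmem v)
  have h2 : (Φ ^ m * Pr).restrict (fun v _ => hmem v) =
      (N : E) • ((Φ.restrict (mapsTo_eig hc ω)) ^ m) := by
    ext v
    have h3 : ((Φ.restrict (mapsTo_eig hc ω)) ^ m) v = ⟨(Φ ^ m) v.1, by
        have := ((Φ.restrict (mapsTo_eig hc ω)) ^ m) v
        exact Module.End.pow_apply_mem_of_forall_mem m (mapsTo_eig hc ω) v.1 v.2⟩ := by
      rw [Module.End.pow_restrict]
      rfl
    change (Φ ^ m) (Pr v.1) = (((N : E) • ((Φ.restrict (mapsTo_eig hc ω)) ^ m)) v : g.eigenspace ω).1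
    rw [LinearMap.smul_apply, h3, hPv v.1 v.2, map_smul]
    rfl
  rw [h2, map_smul, smul_eq_mul] at h1
  rw [h1]
  change LinearMap.trace E V (Φ ^ m * ∑ i ∈ range N, (ω⁻¹) ^ i • g ^ i) = _
  rw [Finset.mul_sum, map_sum]
  refine Finset.sum_congr rfl fun i _ => ?_
  rw [mul_smul_comm, map_smul, smul_eq_mul]

end Pool.Agent.TH117.HS
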