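import Pool.Agent.W528.HS.Fin
import Pool.Agent.W715.HS.OC
import Pool.Agent.W273.HS.PJ
import Pool.Agent.W326.HS.EI
import Pool.Agent.W111.HS.EC
import Pool.Agent.W63.HS.TR
import Pool.Agent.W804.HS.RD
import Pool.Agent.TH117.HS.Glue

/-!
# Cyclic coverings of projective space: all nontrivial characters of the covering group
-/

set_option autoImplicit false
set_option linter.unusedSectionVars false
set_option linter.unusedVariables false

namespace Pool.Agent.TH117.HS

open Finset Polynomial Module Pool.Agent.W528.HA Pool.Agent.W528.HS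

/-- The character sum depends only on the character. -/
theorem projSum_reduce {p s t : ℕ} (hp : p.Prime) (hts : t ≤ s) {L : Type} [Field L] [Fintype L]
    {R : Type} [CommRing R] {k : ℕ} (F : MvPolynomial (Fin k) L) {z : L}
    (hz : IsPrimitiveRoot z (p ^ s)) {ω : R} (hω : ω ^ p ^ t = 1) :
    projSum L R (p ^ s) F z ω = projSum L R (p ^ t) F (z ^ p ^ (s - t)) ω := by
  classical
  have hN : 0 < p ^ s := pow_pos hp.pos s
  have hM : 0 < p ^ t := pow_pos hp.pos t
  have hfac : p ^ s = p ^ (s - t) * p ^ t := by rw [← pow_add, Nat.sub_add_cancel hts]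
  have hz' : IsPrimitiveRoot (z ^ p ^ (s - t)) (p ^ t) := hz.pow hN hfac
  have hωs : ω ^ p ^ s = 1 := by rw [hfac, mul_comm, pow_mul, hω, one_pow]
  have hdvd : p ^ s ∣ Fintype.card L - 1 := pow_dvd_card hN hz
  have hcard : 0 < Fintype.card L - 1 := Nat.sub_pos_of_lt Fintype.one_lt_card
  obtain ⟨b, hb⟩ := hdvd
  have hb0 : 0 < b := Nat.pos_of_ne_zero fun h => by rw [h, mul_zero] at hb; omega
  have e1 : (Fintype.card L - 1) / p ^ s = b := by
    rw [hb, Nat.mul_div_cancel_left _ hN]
  have e2 : (Fintype.card L - 1) / p ^ t = b * p ^ (s - t) := by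
    rw [hb, hfac, mul_comm (p ^ (s - t)), mul_assoc, Nat.mul_div_cancel_left _ hM, mul_comm]
  unfold projSum
  refine Finset.sum_congr rfl fun v _ => ?_
  by_cases hv : IsNorm v
  · rw [if_pos hv, if_pos hv, e1, e2]
    set w := MvPolynomial.eval v F with hw
    by_cases hw0 : w = 0
    · rw [hw0, zero_pow hb0.ne', zero_pow (Nat.mul_pos hb0 (pow_pos hp.pos _)).ne',
        Pool.Agent.W715.HS.OC.kv_zero (hz.ne_zero hN.ne'),
        Pool.Agent.W715.HS.OC.kv_zero (hz'.ne_zero hM.ne')]
    · have h1 : (w ^ b) ^ p ^ s = 1 := by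
        rw [← pow_mul, mul_comm b, ← hb]
        exact FiniteField.pow_card_sub_one_eq_one w hw0
      have : NeZero (p ^ s) := ⟨hN.ne'⟩
      obtain ⟨i, -, hi⟩ := hz.eq_pow_of_pow_eq_one h1
      rw [pow_mul, ← hi, Pool.Agent.W715.HS.OC.kv_pow hN hz hωs, ← pow_mul, mul_comm i, pow_mul,
        Pool.Agent.W715.HS.OC.kv_pow hM hz' hω]
  · rw [if_neg hv, if_neg hv]

/-- A root of unity different from `1` of `p`-power order. -/
theorem exists_order {p s : ℕ} (hp : p.Prime) {E : Type} [Field E] {ω : E} (h1 : ω ≠ 1)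
    (h : ω ^ p ^ s = 1) : ∃ t, 1 ≤ t ∧ t ≤ s ∧ IsPrimitiveRoot ω (p ^ t) := by
  obtain ⟨t, ht, hord⟩ := (Nat.dvd_prime_pow hp).1 (orderOf_dvd_of_pow_eq_one h)
  refine ⟨t, ?_, ht, ?_⟩
  · by_contra hcon
    have h0 : t = 0 := by omega
    rw [h0, pow_zero, orderOf_eq_one_iff] at hord
    exact h1 hord
  · rw [← hord]
    exact IsPrimitiveRoot.orderOf ω

/-- Semisimplicity for the part belonging to an arbitrary nontrivial character. -/
theorem char_gen {p s : ℕ} (hp : p.Prime) (κ : Type) [Field κ] [Fintype κ] {z : κ}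
    (hz : IsPrimitiveRoot z (p ^ s)) {n : ℕ}
    (F : MvPolynomial (Fin (n + 1)) κ) {E : Type} [Field E] [CharZero E] [IsAlgClosed E]
    (P₁ P₂ : ℤ[X]) (hP₁ : P₁.coeff 0 = 1)
    (hP₂ : P₂.coeff 0 = 1) (B₁ B₂ : Multiset E)
    (hB₁ : P₁.map (Int.castRingHom E) = (B₁.map fun x => 1 - C x * X).prod)
    (hB₂ : P₂.map (Int.castRingHom E) = (B₂.map fun x => 1 - C x * X).prod)
    (hU : ∀ (L : Type) [Field L] [Fintype L] [Algebra κ L],
      (projOpen L (F.map (algebraMap κ L)) : E)
        = (B₁.map fun x => x ^ Module.finrank κ L).sum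
          - (B₂.map fun x => x ^ Module.finrank κ L).sum)
    {ω : E} (hω1 : ω ≠ 1) (hω : ω ^ p ^ s = 1)
    {W : Type} [AddCommGroup W] [Module E W] [FiniteDimensional E W] (Φ : Module.End E W)
    (hΦ : ∀ (L : Type) [Field L] [Fintype L] [Algebra κ L],
      (-1) ^ n * LinearMap.trace E W (Φ ^ Module.finrank κ L)
        = projSum L E (p ^ s) (F.map (algebraMap κ L)) (algebraMap κ L z) ω)
    (H : (ZMod p)[X]) (hH : Squarefree H) (hdim : H.natDegree = Module.finrank E W)
    (hev : Even n → H * P₂.map (Int.castRingHom (ZMod p)) = P₁.map (Int.castRingHom (ZMod p)))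
    (hodd : Odd n → H * P₁.map (Int.castRingHom (ZMod p)) = P₂.map (Int.castRingHom (ZMod p))) :
    Φ.charpoly.Separable ∧ Φ.IsSemisimple := by
  obtain ⟨t, ht1, hts, hprim⟩ := exists_order hp hω1 hω
  have hN : 0 < p ^ s := pow_pos hp.pos s
  have hfac : p ^ s = p ^ (s - t) * p ^ t := by rw [← pow_add, Nat.sub_add_cancel hts]
  have hz' : IsPrimitiveRoot (z ^ p ^ (s - t)) (p ^ t) := hz.pow hN hfac
  refine semisimple_gen Pool.Agent.W715.HS.OC.main Pool.Agent.W326.HS.EI.main
    Pool.Agent.W111.HS.EC.main Pool.Agent.W63.HS.TR.main Pool.Agent.W804.HS.RD.main hp κ hz' F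
    hprim P₁ P₂ hP₁ hP₂ B₁ B₂ hB₁ hB₂ hU Φ ?_ H hH hdim hev hodd
  intro L _ _ _
  rw [hΦ L, projSum_reduce hp hts _ (hz.map_of_injective (algebraMap κ L).injective)
    hprim.pow_eq_one, map_pow]

/-- The number of points `v` of projective space over `L`, with normalized coordinates, such that
`F(v)` is not zero and its power with exponent `(|L| - 1) / N` is `z ^ i`. -/
noncomputable def projFix (L : Type) [Field L] [Fintype L] (N : ℕ) {k : ℕ}
    (F : MvPolynomial (Fin k) L) (z : L) (i : ℕ) : ℕ :=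
  Set.ncard {v : Fin k → L | IsNorm v ∧ MvPolynomial.eval v F ≠ 0 ∧
    (MvPolynomial.eval v F) ^ ((Fintype.card L - 1) / N) = z ^ i}

/-- Fourier transform. -/
theorem sum_projFix {L : Type} [Field L] [Fintype L] {E : Type} [Field E] {N : ℕ} (hN : 0 < N)
    {k : ℕ} (F : MvPolynomial (Fin k) L) {z : L} (hz : IsPrimitiveRoot z N) {ω : E}
    (hω : ω ^ N = 1) :
    ∑ i ∈ range N, ω ^ i * (projFix L N F z i : E) = projSum L E N F z ω := by
  classical
  have hdvd : N ∣ Fintype.card L - 1 := pow_dvd_card hN hz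
  have hcard : 0 < Fintype.card L - 1 := Nat.sub_pos_of_lt Fintype.one_lt_card
  have hb0 : 0 < (Fintype.card L - 1) / N := Nat.div_pos (Nat.le_of_dvd hcard hdvd) hN
  have h1 : ∀ i, (projFix L N F z i : E) = ∑ v : Fin k → L,
      if IsNorm v ∧ MvPolynomial.eval v F ≠ 0 ∧
        (MvPolynomial.eval v F) ^ ((Fintype.card L - 1) / N) = z ^ i then 1 else 0 := by
    intro i
    rw [Finset.sum_boole, projFix, Set.ncard_eq_toFinset_card']
    congr 2
    ext v
    simp
  simp only [h1, Finset.mul_sum]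
  rw [Finset.sum_comm]
  unfold projSum
  refine Finset.sum_congr rfl fun v _ => ?_
  by_cases hv : IsNorm v
  · rw [if_pos hv]
    unfold kv
    refine Finset.sum_congr rfl fun i _ => ?_
    by_cases hi : (MvPolynomial.eval v F) ^ ((Fintype.card L - 1) / N) = z ^ i
    · have h0 : MvPolynomial.eval v F ≠ 0 := by
        intro h0
        rw [h0, zero_pow hb0.ne'] at hi
        exact (pow_ne_zero i (hz.ne_zero hN.ne')) hi.symm
      rw [if_pos ⟨hv, h0, hi⟩, if_pos hi, mul_one]
    · rw [if_neg (fun h => hi h.2.2), if_neg hi, mul_zero]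
  · rw [if_neg hv]
    exact Finset.sum_eq_zero fun i _ => by rw [if_neg (fun h => hv h.1), mul_zero]

/-- The cohomology of degree `n` of a complete cyclic covering of projective space. -/
theorem whole {p s : ℕ} (hp : p.Prime) (κ : Type) [Field κ] [Fintype κ] {z : κ}
    (hz : IsPrimitiveRoot z (p ^ s)) {n : ℕ}
    (F : MvPolynomial (Fin (n + 1)) κ) {E : Type} [Field E] [CharZero E] [IsAlgClosed E]
    (P₁ P₂ : ℤ[X]) (hP₁ : P₁.coeff 0 = 1)
    (hP₂ : P₂.coeff 0 = 1) (B₁ B₂ : Multiset E)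
    (hB₁ : P₁.map (Int.castRingHom E) = (B₁.map fun x => 1 - C x * X).prod)
    (hB₂ : P₂.map (Int.castRingHom E) = (B₂.map fun x => 1 - C x * X).prod)
    (hU : ∀ (L : Type) [Field L] [Fintype L] [Algebra κ L],
      (projOpen L (F.map (algebraMap κ L)) : E)
        = (B₁.map fun x => x ^ Module.finrank κ L).sum
          - (B₂.map fun x => x ^ Module.finrank κ L).sum)
    {V : Type} [AddCommGroup V] [Module E V] [FiniteDimensional E V] (Φ g : Module.End E V)
    (hc : Commute Φ g) (hg : g ^ p ^ s = 1)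
    (hinv : ∀ v, g v = v → Φ v = (Fintype.card κ : E) ^ (n / 2) • v)
    (hfix : ∀ (L : Type) [Field L] [Fintype L] [Algebra κ L] (i : ℕ),
      (∑ k ∈ range (n + 1), if 2 * k = n then 0 else (Fintype.card L : E) ^ k) +
          (-1) ^ n * LinearMap.trace E V (Φ ^ Module.finrank κ L * g ^ i) =
        (projZero L (F.map (algebraMap κ L)) : E) +
          (p : E) ^ s * projFix L (p ^ s) (F.map (algebraMap κ L)) (algebraMap κ L z) i)
    (H : (ZMod p)[X]) (hH : Squarefree H)
    (hdim : ∀ ω : E, ω ≠ 1 → ω ^ p ^ s = 1 → H.natDegree = Module.finrank E (g.eigenspace ω))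
    (hev : Even n → H * P₂.map (Int.castRingHom (ZMod p)) = P₁.map (Int.castRingHom (ZMod p)))
    (hodd : Odd n → H * P₁.map (Int.castRingHom (ZMod p)) = P₂.map (Int.castRingHom (ZMod p))) :
    Φ.IsSemisimple := by
  classical
  have hN : 0 < p ^ s := pow_pos hp.pos s
  refine semisimple_glue hc hN hg fun ω hω => ?_
  by_cases hω1 : ω = 1
  · subst hω1
    have h1 : Φ.restrict (mapsTo_eig hc (1 : E)) =
        algebraMap E (Module.End E (g.eigenspace (1 : E))) ((Fintype.card κ : E) ^ (n / 2)) := by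
      ext v
      have h2 : g v.1 = v.1 := by
        have := Module.End.mem_eigenspace_iff.1 v.2
        rwa [one_smul] at this
      exact hinv v.1 h2
    rw [h1]
    refine semisimple_of_iSup _ ?_
    rw [eq_top_iff]
    refine le_trans ?_ (le_iSup _ ((Fintype.card κ : E) ^ (n / 2)))
    intro v _
    rw [Module.End.mem_eigenspace_iff, Module.algebraMap_end_apply]
  · have hω' : (ω⁻¹) ^ p ^ s = 1 := by rw [inv_pow, hω, inv_one]
    have hω1' : ω⁻¹ ≠ 1 := fun h => hω1 (inv_eq_one.1 h)
    refine (char_gen hp κ hz F P₁ P₂ hP₁ hP₂ B₁ B₂ hB₁ hB₂ hU hω1' hω'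
      (Φ.restrict (mapsTo_eig hc ω)) ?_ H hH (hdim ω hω1 hω) hev hodd).2
    intro L _ _ _
    have hzL : IsPrimitiveRoot (algebraMap κ L z) (p ^ s) :=
      hz.map_of_injective (algebraMap κ L).injective
    have h1 := trace_eig hc hN hg hω (Module.finrank κ L)
    have h0 : ∑ i ∈ range (p ^ s), (ω⁻¹) ^ i = 0 := by
      have h2 := mul_geom_sum (ω⁻¹) (p ^ s)
      rw [hω', sub_self] at h2
      exact (mul_eq_zero.1 h2).resolve_left (sub_ne_zero.2 hω1')
    have hps : ((p ^ s : ℕ) : E) ≠ 0 := by exact_mod_cast hN.ne'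
    apply mul_left_cancel₀ hps
    have h3 : ∀ i, (-1) ^ n * LinearMap.trace E V (Φ ^ Module.finrank κ L * g ^ i) =
        ((projZero L (F.map (algebraMap κ L)) : E) -
          ∑ k ∈ range (n + 1), if 2 * k = n then 0 else (Fintype.card L : E) ^ k) +
          (p : E) ^ s * projFix L (p ^ s) (F.map (algebraMap κ L)) (algebraMap κ L z) i := by
      intro i
      have := hfix L i
      linear_combination this
    calc ((p ^ s : ℕ) : E) * ((-1) ^ n *
          LinearMap.trace E _ ((Φ.restrict (mapsTo_eig hc ω)) ^ Module.finrank κ L))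
        = ∑ i ∈ range (p ^ s), (ω⁻¹) ^ i * ((-1) ^ n *
            LinearMap.trace E V (Φ ^ Module.finrank κ L * g ^ i)) := by
          rw [mul_left_comm, h1, Finset.mul_sum]
          exact Finset.sum_congr rfl fun i _ => by ring
      _ = ∑ i ∈ range (p ^ s), ((ω⁻¹) ^ i * ((projZero L (F.map (algebraMap κ L)) : E) -
          ∑ k ∈ range (n + 1), if 2 * k = n then 0 else (Fintype.card L : E) ^ k) +
          (p : E) ^ s * ((ω⁻¹) ^ i *
            projFix L (p ^ s) (F.map (algebraMap κ L)) (algebraMap κ L z) i)) :=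
          Finset.sum_congr rfl fun i _ => by rw [h3]; ring
      _ = _ := by
          rw [Finset.sum_add_distrib, ← Finset.sum_mul, h0, zero_mul, zero_add, ← Finset.mul_sum,
            sum_projFix hN _ hzL hω']
          push_cast
          ring

end Pool.Agent.TH117.HS
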