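import Pool.Agent.TH117.HS.Char

/-!
# Cyclic coverings of projective space with smooth branch hypersurface
-/

set_option autoImplicit false
set_option linter.unusedSectionVars false

namespace Pool.Agent.TH117.HS

open Finset Polynomial Module Pool.Agent.W528.HA Pool.Agent.W528.HS

/-- Smooth branch hypersurface. -/
theorem whole_smooth {p s : ℕ} (hp : p.Prime) (hs : 1 ≤ s) (κ : Type) [Field κ] [Fintype κ] {z : κ}
    (hz : IsPrimitiveRoot z (p ^ s)) {n : ℕ}
    (F : MvPolynomial (Fin (n + 1)) κ) {E : Type} [Field E] [CharZero E] [IsAlgClosed E]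
    (P : ℤ[X]) (hP : P.coeff 0 = 1) (B : Multiset E)
    (hB : P.map (Int.castRingHom E) = (B.map fun x => 1 - C x * X).prod)
    (hZ : ∀ (L : Type) [Field L] [Fintype L] [Algebra κ L],
      (projZero L (F.map (algebraMap κ L)) : E)
        = (∑ i ∈ range n, (Fintype.card L : E) ^ i)
          - (-1) ^ n * (B.map fun x => x ^ Module.finrank κ L).sum)
    {V : Type} [AddCommGroup V] [Module E V] [FiniteDimensional E V] (Φ g : Module.End E V)
    (hc : Commute Φ g) (hg : g ^ p ^ s = 1)
    (hinv : ∀ v, g v = v → Φ v = (Fintype.card κ : E) ^ (n / 2) • v)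
    (hfix : ∀ (L : Type) [Field L] [Fintype L] [Algebra κ L] (i : ℕ),
      (∑ k ∈ range (n + 1), if 2 * k = n then 0 else (Fintype.card L : E) ^ k) +
          (-1) ^ n * LinearMap.trace E V (Φ ^ Module.finrank κ L * g ^ i) =
        (projZero L (F.map (algebraMap κ L)) : E) +
          (p : E) ^ s * projFix L (p ^ s) (F.map (algebraMap κ L)) (algebraMap κ L z) i)
    (H : (ZMod p)[X]) (hH : Squarefree H)
    (hdim : ∀ ω : E, ω ≠ 1 → ω ^ p ^ s = 1 → H.natDegree = Module.finrank E (g.eigenspace ω))
    (hev : Even n → H = (1 - X) * P.map (Int.castRingHom (ZMod p)))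
    (hodd : Odd n → (1 - X) * H = P.map (Int.castRingHom (ZMod p))) :
    Φ.IsSemisimple := by
  classical
  have hfact : Fact p.Prime := ⟨hp⟩
  set q := Fintype.card κ with hq
  have hq1 : ((q : ℕ) : ZMod p) = 1 := card_eq_one hp hs hz (ZMod p)
  have hcard : ∀ (L : Type) [Field L] [Fintype L] [Algebra κ L],
      (Fintype.card L : E) = (q : E) ^ Module.finrank κ L := by
    intro L _ _ _
    rw [Module.card_eq_pow_finrank (K := κ) (V := L)]
    push_cast
    rfl
  have hopen : ∀ (L : Type) [Field L] [Fintype L] [Algebra κ L],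
      (projOpen L (F.map (algebraMap κ L)) : E) = ((q : E) ^ n) ^ Module.finrank κ L +
        (-1) ^ n * (B.map fun x => x ^ Module.finrank κ L).sum := by
    intro L _ _ _
    have h1 := Pool.Agent.W273.HS.PJ.main L n (F.map (algebraMap κ L))
    have h2 : (projOpen L (F.map (algebraMap κ L)) : E) + projZero L (F.map (algebraMap κ L))
        = ∑ i ∈ range (n + 1), (Fintype.card L : E) ^ i := by exact_mod_cast h1
    rw [hZ L, sum_range_succ] at h2
    have h3 : (Fintype.card L : E) ^ n = ((q : E) ^ n) ^ Module.finrank κ L := by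
      rw [hcard L, ← pow_mul, ← pow_mul, mul_comm]
    rw [← h3]
    linear_combination h2
  let Q : ℤ[X] := 1 - C ((q : ℤ) ^ n) * X
  have hQ0 : Q.coeff 0 = 1 := by simp [Q]
  have hQE : Q.map (Int.castRingHom E) = ((({(q : E) ^ n} : Multiset E)).map
      fun x => 1 - C x * X).prod := by
    simp [Q]
  have hQp : Q.map (Int.castRingHom (ZMod p)) = 1 - X := by
    have hqX : ((q : ℕ) : (ZMod p)[X]) = 1 := by rw [← C_eq_natCast, hq1, C_1]
    simp [Q, hqX]
  rcases Nat.even_or_odd n with hn | hn
  · refine whole hp κ hz F (Q * P) 1 ?_ (by simp) ({(q : E) ^ n} + B) 0 ?_ (by simp) ?_ Φ g hc hg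
      hinv hfix H hH hdim ?_ ?_
    · rw [mul_coeff_zero, hQ0, hP, mul_one]
    · rw [Polynomial.map_mul, hQE, hB, Multiset.map_add, Multiset.prod_add]
    · intro L _ _ _
      rw [hopen L, hn.neg_one_pow, one_mul, Multiset.map_add, Multiset.sum_add]
      simp
    · intro _
      rw [Polynomial.map_mul, hQp, Polynomial.map_one, mul_one]
      exact hev hn
    · intro h
      exact absurd hn (Nat.not_even_iff_odd.mpr h)
  · refine whole hp κ hz F Q P hQ0 hP {(q : E) ^ n} B hQE hB ?_ Φ g hc hg
      hinv hfix H hH hdim ?_ ?_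
    · intro L _ _ _
      rw [hopen L, hn.neg_one_pow]
      simp
      ring
    · intro h
      exact absurd h (Nat.not_even_iff_odd.mpr hn)
    · intro _
      rw [hQp, mul_comm]
      exact hodd hn

end Pool.Agent.TH117.HS
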